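import Mathlib

/-!
# Periodicity of generalized pseudostandard words

A `d`-ary generalized pseudostandard word with the normalized directive bi-sequence
`(Δ, Θ) = (v δ₁ δ₂ ⋯, σ ϑ₁ ϑ₂ ⋯)` is periodic if and only if, for a suitable splitting,
`ϑᵢ (δᵢ₊₁)` does not depend on `i` and `ϑᵢ₊₁ (w)` is a `ϑᵢ₊₂`-palindrome for all `ϑᵢ`-palindromes `w`.
-/

set_option autoImplicit false

namespace Pool.Agent.Results.MP_757726_co.PeriodicWords

variable {α : Type}

/-- involutory antimorphisms of the free monoid of words over `α` -/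
def InvAnti (θ : List α → List α) : Prop :=
  (∀ v w, θ (v ++ w) = θ w ++ θ v) ∧ ∀ w, θ (θ w) = w

/-- `z` is a shortest `θ`-palindrome with the prefix `w` -/
def IsClosure (θ : List α → List α) (w z : List α) : Prop :=
  θ z = z ∧ w <+: z ∧ ∀ z', θ z' = z' → w <+: z' → z.length ≤ z'.length

open Classical in
/-- the `θ`-palindromic closure of `w` -/
noncomputable def palClosure (θ : List α → List α) (w : List α) : List α :=
  if h : ∃ z, IsClosure θ w z then h.choose else []

/-- the words `w₀ = ε`, `wₙ₊₁ = (wₙ δₙ₊₁)^{ϑₙ₊₁}`; the letter `δₙ₊₁` is `Δ n` and the antimorphism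
`ϑₙ₊₁` is `Θ n` -/
noncomputable def pre (Δ : ℕ → α) (Θ : ℕ → List α → List α) : ℕ → List α
  | 0 => []
  | n + 1 => palClosure (Θ n) (pre Δ Θ n ++ [Δ n])

/-- the prefix of length `m` of the infinite word `u` -/
def pref (u : ℕ → α) (m : ℕ) : List α := (List.range m).map u

/-- `u` is the generalized pseudostandard word with the directive bi-sequence `(Δ, Θ)`: all the words
`wₙ` are prefixes of `u` -/
def Generates (Δ : ℕ → α) (Θ : ℕ → List α → List α) (u : ℕ → α) : Prop :=
  ∀ n, pre Δ Θ n = pref u (pre Δ Θ n).length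

/-- the directive bi-sequence `(Δ, Θ)` of `u` is normalized: each prefix of `u` which is a
`ϑ`-palindrome for some involutory antimorphism `ϑ` is one of the words `wₙ` -/
def Normalized (Δ : ℕ → α) (Θ : ℕ → List α → List α) (u : ℕ → α) : Prop :=
  ∀ m, (∃ θ : List α → List α, InvAnti θ ∧ θ (pref u m) = pref u m) → ∃ n, pre Δ Θ n = pref u m

/-- `u = w v^ω` for some finite words `w` and `v ≠ ε` -/
def Periodic (u : ℕ → α) : Prop :=
  ∃ N p : ℕ, 0 < p ∧ ∀ i, N ≤ i → u (i + p) = u i

/-! ## Involutory antimorphisms -/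

theorem anti_nil {θ : List α → List α} (h : InvAnti θ) : θ [] = [] := by
  have := congrArg List.length (h.1 [] [])
  simp at this
  exact this

theorem anti_length {θ : List α → List α} (h : InvAnti θ) (w : List α) :
    (θ w).length = w.length := by
  have h1 : ∀ w : List α, w.length ≤ (θ w).length := by
    intro w
    induction w with
    | nil => simp
    | cons a w ih =>
      have e : a :: w = [a] ++ w := rfl
      rw [e, h.1, List.length_append, List.length_append]
      have : 1 ≤ (θ [a]).length := by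
        by_contra hcon
        have h0 : θ [a] = [] := List.length_eq_zero_iff.1 (by omega)
        have := h.2 [a]
        rw [h0, anti_nil h] at this
        exact absurd this (by simp)
      simp only [List.length_singleton]
      omega
  have h2 := h1 (θ w)
  rw [h.2] at h2
  exact le_antisymm h2 (h1 w)

theorem anti_shape {θ : List α → List α} (h : InvAnti θ) :
    ∃ ψ : α → α, (∀ x, ψ (ψ x) = x) ∧ ∀ w, θ w = w.reverse.map ψ := by
  have h1 : ∀ a, ∃ b, θ [a] = [b] := by
    intro a
    have := anti_length h [a]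
    exact List.length_eq_one_iff.1 (by simpa using this)
  choose ψ hψ using h1
  have h2 : ∀ w, θ w = w.reverse.map ψ := by
    intro w
    induction w with
    | nil => simpa using anti_nil h
    | cons a w ih =>
      have e : a :: w = [a] ++ w := rfl
      rw [e, h.1, ih, hψ]
      simp
  refine ⟨ψ, fun x => ?_, h2⟩
  have := h.2 [x]
  rw [hψ, hψ] at this
  simpa using this

theorem shape_anti {ψ : α → α} (h : ∀ x, ψ (ψ x) = x) :
    InvAnti (fun w : List α => w.reverse.map ψ) := by
  constructor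
  · intro v w
    simp
  · intro w
    simp only [List.map_reverse, List.reverse_reverse, List.map_map]
    conv_rhs => rw [← List.map_id w]
    apply List.map_congr_left
    intro x _
    exact h x

theorem pal_iff {ψ : α → α} (w : List α) :
    w.reverse.map ψ = w ↔
      ∀ i (h : i < w.length), w[i] = ψ (w[w.length - 1 - i]) := by
  constructor
  · intro h i hi
    have h1 : (w.reverse.map ψ)[i]'(by simpa using hi) = w[i] := by
      simp only [h]
    rw [← h1]
    simp
  · intro h
    apply List.ext_getElem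
    · simp
    · intro i h1 h2
      rw [h i h2]
      simp

theorem pref_length (u : ℕ → α) (m : ℕ) : (pref u m).length = m := by simp [pref]

theorem pref_get (u : ℕ → α) (m i : ℕ) (h : i < (pref u m).length) : (pref u m)[i] = u i := by
  simp [pref]

theorem pal_pref_iff {ψ : α → α} (u : ℕ → α) (m : ℕ) :
    (pref u m).reverse.map ψ = pref u m ↔ ∀ i < m, u i = ψ (u (m - 1 - i)) := by
  rw [pal_iff]
  constructor
  · intro h i hi
    have := h i (by rw [pref_length]; exact hi)
    rw [pref_get, pref_get, pref_length] at this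
    exact this
  · intro h i hi
    rw [pref_get, pref_get, pref_length]
    rw [pref_length] at hi
    exact h i hi

/-! ## The palindromic closure -/

theorem exists_closure {θ : List α → List α} (h : InvAnti θ) (w : List α) :
    ∃ z, IsClosure θ w z := by
  classical
  have hex : ∃ l, ∃ z : List α, z.length = l ∧ θ z = z ∧ w <+: z :=
    ⟨_, w ++ θ w, rfl, by rw [h.1, h.2], List.prefix_append _ _⟩
  obtain ⟨z, hz1, hz2, hz3⟩ := Nat.find_spec hex
  refine ⟨z, hz2, hz3, fun z' h1 h2 => ?_⟩
  rw [hz1]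
  exact Nat.find_min' hex ⟨z', rfl, h1, h2⟩

theorem closure_spec {θ : List α → List α} (h : InvAnti θ) (w : List α) :
    IsClosure θ w (palClosure θ w) := by
  unfold palClosure
  rw [dif_pos (exists_closure h w)]
  exact (exists_closure h w).choose_spec


/-! ## The lengths of the words `wₙ` -/

theorem pref_succ (u : ℕ → α) (m : ℕ) : pref u (m + 1) = pref u m ++ [u m] := by
  simp [pref, List.range_succ]

theorem prefix_pref {u : ℕ → α} {M : ℕ} {w : List α} (h : w <+: pref u M) :
    w = pref u w.length ∧ w.length ≤ M := by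
  have hl : w.length ≤ M := by
    have := h.length_le
    rwa [pref_length] at this
  refine ⟨?_, hl⟩
  have h1 := List.prefix_iff_eq_take.1 h
  conv_lhs => rw [h1]
  unfold pref
  rw [← List.map_take, List.take_range, min_eq_left hl]

section main

variable {Δ : ℕ → α} {Θ : ℕ → List α → List α} {u : ℕ → α}

/-- the length of `wₙ` -/
noncomputable def len (Δ : ℕ → α) (Θ : ℕ → List α → List α) (n : ℕ) : ℕ := (pre Δ Θ n).length

theorem step (hΘ : ∀ n, InvAnti (Θ n)) (hu : Generates Δ Θ u) (n : ℕ) :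
    pre Δ Θ n ++ [Δ n] = pref u (len Δ Θ n + 1) ∧ len Δ Θ n < len Δ Θ (n + 1) := by
  have h1 := (closure_spec (hΘ n) (pre Δ Θ n ++ [Δ n])).2.1
  have h2 : palClosure (Θ n) (pre Δ Θ n ++ [Δ n]) = pref u (len Δ Θ (n + 1)) := hu (n + 1)
  rw [h2] at h1
  obtain ⟨h3, h4⟩ := prefix_pref h1
  have e : (pre Δ Θ n ++ [Δ n]).length = len Δ Θ n + 1 := by simp [len]
  rw [e] at h3 h4
  exact ⟨h3, h4⟩

theorem letter (hΘ : ∀ n, InvAnti (Θ n)) (hu : Generates Δ Θ u) (n : ℕ) :
    u (len Δ Θ n) = Δ n := by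
  have h1 := (step hΘ hu n).1
  have h0 : pref u (len Δ Θ n) = pre Δ Θ n := (hu n).symm
  rw [pref_succ, h0] at h1
  have h2 := List.append_cancel_left h1
  simpa using h2.symm

theorem pal {ψ : ℕ → α → α} (hψ : ∀ n w, Θ n w = w.reverse.map (ψ n))
    (hΘ : ∀ n, InvAnti (Θ n)) (hu : Generates Δ Θ u) (n : ℕ) :
    ∀ i < len Δ Θ (n + 1), u i = ψ n (u (len Δ Θ (n + 1) - 1 - i)) := by
  have h1 := (closure_spec (hΘ n) (pre Δ Θ n ++ [Δ n])).1
  have h2 : palClosure (Θ n) (pre Δ Θ n ++ [Δ n]) = pref u (len Δ Θ (n + 1)) := hu (n + 1)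
  rw [h2, hψ, pal_pref_iff] at h1
  exact h1

theorem least {ψ : ℕ → α → α} (hψ : ∀ n w, Θ n w = w.reverse.map (ψ n))
    (hΘ : ∀ n, InvAnti (Θ n)) (hu : Generates Δ Θ u) (n : ℕ) (z : List α)
    (hz : z.reverse.map (ψ n) = z) (hp : pref u (len Δ Θ n + 1) <+: z) :
    len Δ Θ (n + 1) ≤ z.length := by
  have h1 := (closure_spec (hΘ n) (pre Δ Θ n ++ [Δ n])).2.2
  exact h1 z (by rw [hψ]; exact hz) (by rw [(step hΘ hu n).1]; exact hp)

theorem normal {ψ : α → α} (h : ∀ x, ψ (ψ x) = x) (hN : Normalized Δ Θ u) (m : ℕ)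
    (hp : ∀ i < m, u i = ψ (u (m - 1 - i))) : ∃ n, len Δ Θ n = m := by
  obtain ⟨n, hn⟩ := hN m ⟨_, shape_anti h, (pal_pref_iff u m).2 hp⟩
  exact ⟨n, by unfold len; rw [hn, pref_length]⟩

/-- the word with the directive bi-sequence `(Δ, Θ)` exists and is unique -/
theorem exists_word (Δ : ℕ → α) (Θ : ℕ → List α → List α) (hΘ : ∀ n, InvAnti (Θ n)) :
    ∃! u : ℕ → α, Generates Δ Θ u := by
  have h1 : ∀ n, pre Δ Θ n ++ [Δ n] <+: pre Δ Θ (n + 1) := fun n =>
    (closure_spec (hΘ n) (pre Δ Θ n ++ [Δ n])).2.1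
  have h2 : ∀ n, pre Δ Θ n <+: pre Δ Θ (n + 1) := fun n => (List.prefix_append _ _).trans (h1 n)
  have h3 : ∀ n, n ≤ (pre Δ Θ n).length := by
    intro n
    induction n with
    | zero => simp
    | succ n ih =>
      have := (h1 n).length_le
      simp at this
      omega
  have h4 : ∀ n m, n ≤ m → pre Δ Θ n <+: pre Δ Θ m := by
    intro n m h
    induction m, h using Nat.le_induction with
    | base => exact List.prefix_rfl
    | succ m _ ih => exact ih.trans (h2 m)
  refine ⟨fun i => (pre Δ Θ (i + 1))[i]'(h3 (i + 1)), fun n => ?_, fun v hv => ?_⟩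
  · apply List.ext_getElem
    · rw [pref_length]
    · intro i hi hi'
      rw [pref_get]
      rcases le_total n (i + 1) with h | h
      · exact (h4 _ _ h).getElem hi
      · exact ((h4 _ _ h).getElem (h3 (i + 1))).symm
  · funext i
    have h5 := hv (i + 1)
    have h6 : i < (pre Δ Θ (i + 1)).length := h3 (i + 1)
    have h7 : (pref v (pre Δ Θ (i + 1)).length)[i]'(by rw [pref_length]; exact h6) = v i :=
      pref_get _ _ _ _
    rw [← h7]
    simp only [← h5]

end main

/-! ## The conditions imply periodicity -/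

/-- the abstract situation: `L n` is the length of `wₙ₊₁`, which is a palindrome for `ψ n` -/
structure Sit (u : ℕ → α) (L : ℕ → ℕ) (ψ : ℕ → α → α) : Prop where
  inv : ∀ n x, ψ n (ψ n x) = x
  mono : StrictMono L
  pal : ∀ n, ∀ i < L n, u i = ψ n (u (L n - 1 - i))
  least : ∀ n (z : List α), z.reverse.map (ψ (n + 1)) = z → pref u (L n + 1) <+: z →
    L (n + 1) ≤ z.length
  normal : ∀ (φ : α → α), (∀ x, φ (φ x) = x) → ∀ m, 0 < m →
    (∀ i < m, u i = φ (u (m - 1 - i))) → ∃ n, L n = m

theorem sit {Δ : ℕ → α} {Θ : ℕ → List α → List α} {u : ℕ → α} (hΘ : ∀ n, InvAnti (Θ n))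
    (hu : Generates Δ Θ u) (hN : Normalized Δ Θ u) {ψ : ℕ → α → α}
    (hi : ∀ n x, ψ n (ψ n x) = x) (hψ : ∀ n w, Θ n w = w.reverse.map (ψ n)) :
    Sit u (fun n => len Δ Θ (n + 1)) ψ where
  inv := hi
  mono := strictMono_nat_of_lt_succ fun n => (step hΘ hu (n + 1)).2
  pal := pal hψ hΘ hu
  least := fun n z h1 h2 => least hψ hΘ hu (n + 1) z h1 h2
  normal := by
    intro φ hφ m hm hp
    obtain ⟨n, hn⟩ := normal hφ hN m hp
    cases n with
    | zero =>
      simp [len, pre] at hn
      omega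
    | succ n => exact ⟨n, hn⟩

section back

variable {u : ℕ → α} {L : ℕ → ℕ} {ψ : ℕ → α → α}

/-- under the two conditions the lengths form an arithmetic progression -/
theorem arith (S : Sit u L ψ) (n : ℕ) (h1 : ψ n (u (L n)) = ψ (n + 1) (u (L (n + 1))))
    (h2 : ∀ x, ψ (n + 2) (ψ (n + 1) x) = ψ (n + 1) (ψ n x)) :
    L (n + 2) + L n = 2 * L (n + 1) := by
  have m1 : L n < L (n + 1) := S.mono (by omega)
  have m2 : L (n + 1) < L (n + 2) := S.mono (by omega)
  have h2' : ∀ x, ψ (n + 2) x = ψ (n + 1) (ψ n (ψ (n + 1) x)) := by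
    intro x
    have := h2 (ψ (n + 1) x)
    rwa [S.inv] at this
  apply le_antisymm
  · -- a palindrome of the length `2 L (n + 1) - L n`
    set M := 2 * L (n + 1) - L n with hM
    let z : ℕ → α := fun x => if x < L (n + 1) then u x else ψ (n + 2) (u (M - 1 - x))
    have hzp : ∀ i < M, z i = ψ (n + 2) (z (M - 1 - i)) := by
      intro x hx
      by_cases c1 : x < L (n + 1)
      · by_cases c2 : M - 1 - x < L (n + 1)
        · simp only [z, if_pos c1, if_pos c2]
          -- `x = L (n + 1) - 1 - j`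
          obtain ⟨j, hj⟩ : ∃ j, j = L (n + 1) - 1 - x := ⟨_, rfl⟩
          have hjn : j < L n := by omega
          have e1 : u x = ψ (n + 1) (u j) := by
            rw [S.pal (n + 1) x c1, ← hj]
          have e2 : u (M - 1 - x) = ψ (n + 1) (u (L n - 1 - j)) := by
            rw [S.pal (n + 1) _ c2]
            congr 2
            omega
          have e3 : u j = ψ n (u (L n - 1 - j)) := S.pal n j hjn
          rw [e1, e2, h2', S.inv, e3]
        · have c3 : M - 1 - (M - 1 - x) = x := by omega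
          simp only [z, if_pos c1, if_neg c2, c3, S.inv]
      · have c2 : M - 1 - x < L (n + 1) := by omega
        simp only [z, if_neg c1, if_pos c2]
    have hz1 : (pref z M).reverse.map (ψ (n + 2)) = pref z M := (pal_pref_iff z M).2 hzp
    have hz2 : pref u (L (n + 1) + 1) <+: pref z M := by
      have e : pref u (L (n + 1) + 1) = pref z (L (n + 1) + 1) := by
        unfold pref
        apply List.map_congr_left
        intro x hx
        rw [List.mem_range] at hx
        by_cases c1 : x < L (n + 1)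
        · simp only [z, if_pos c1]
        · have hx' : x = L (n + 1) := by omega
          subst hx'
          simp only [z, if_neg c1]
          -- the letter
          have e1 : u (M - 1 - L (n + 1)) = ψ (n + 1) (u (L n)) := by
            rw [S.pal (n + 1) _ (by omega)]
            congr 2
            omega
          rw [e1, h2', S.inv, h1, S.inv]
      rw [e]
      refine ⟨((List.range (M - (L (n + 1) + 1))).map fun i => z (L (n + 1) + 1 + i)), ?_⟩
      unfold pref
      have : M = L (n + 1) + 1 + (M - (L (n + 1) + 1)) := by omega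
      conv_rhs => rw [this, List.range_add, List.map_append, List.map_map]
      rfl
    have := S.least (n + 1) _ hz1 hz2
    rw [pref_length] at this
    have e : n + 1 + 1 = n + 2 := rfl
    rw [e] at this
    omega
  · by_contra hcon
    push Not at hcon
    set m := 2 * L (n + 1) - L (n + 2) with hm
    have hmn : L n < m := by omega
    have hmn' : m < L (n + 1) := by omega
    obtain ⟨k, hk⟩ := S.normal (ψ n) (S.inv n) m (by omega) (by
      intro j hj
      have e1 : u j = ψ (n + 1) (u (L (n + 1) - 1 - j)) := S.pal (n + 1) j (by omega)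
      have e2 : u (L (n + 1) - 1 - j) = ψ (n + 2) (u (L (n + 2) - L (n + 1) + j)) := by
        rw [S.pal (n + 2) _ (by omega)]
        congr 2
        omega
      have e3 : u (L (n + 2) - L (n + 1) + j) = ψ (n + 1) (u (m - 1 - j)) := by
        rw [S.pal (n + 1) _ (by omega)]
        congr 2
        omega
      rw [e1, e2, e3, h2', S.inv, S.inv])
    rw [← hk] at hmn hmn'
    have := S.mono.lt_iff_lt.1 hmn
    have := S.mono.lt_iff_lt.1 hmn'
    omega

theorem back [Finite α] (S : Sit u L ψ) (N : ℕ)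
    (h1 : ∀ n, N ≤ n → ψ n (u (L n)) = ψ (n + 1) (u (L (n + 1))))
    (h2 : ∀ n, N ≤ n → ∀ x, ψ (n + 2) (ψ (n + 1) x) = ψ (n + 1) (ψ n x)) : Periodic u := by
  set t := L (N + 1) - L N with ht
  have htp : 0 < t := by
    have : L N < L (N + 1) := S.mono (by omega)
    omega
  have hL : ∀ k, L (N + k + 1) = L (N + k) + t := by
    intro k
    induction k with
    | zero =>
      have : L N < L (N + 1) := S.mono (by omega)
      simp only [add_zero]
      omega
    | succ k ih =>
      have h3 := arith S (N + k) (h1 _ (by omega)) (h2 _ (by omega))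
      have e1 : N + (k + 1) + 1 = N + k + 2 := by ring
      have e2 : N + (k + 1) = N + k + 1 := by ring
      rw [e1, e2]
      omega
  have hρ : ∀ k x, ψ (N + k + 1) (ψ (N + k) x) = ψ (N + 1) (ψ N x) := by
    intro k x
    induction k with
    | zero => rfl
    | succ k ih =>
      have h3 := h2 (N + k) (by omega) x
      have e1 : N + (k + 1) + 1 = N + k + 2 := by ring
      have e2 : N + (k + 1) = N + k + 1 := by ring
      rw [e1, e2, h3, ih]
  let e : Equiv.Perm α :=
    { toFun := fun x => ψ (N + 1) (ψ N x)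
      invFun := fun x => ψ N (ψ (N + 1) x)
      left_inv := fun x => by simp only [S.inv]
      right_inv := fun x => by simp only [S.inv] }
  have hsh : ∀ x, u (x + t) = e (u x) := by
    intro x
    have hx : x < L (N + x + 1) := lt_of_lt_of_le (by omega) (S.mono.le_apply (x := N + x + 1))
    have e1 := S.pal (N + (x + 1) + 1) (x + t) (by
      rw [hL (x + 1)]
      have : N + (x + 1) = N + x + 1 := by ring
      rw [this]
      omega)
    have e2 : L (N + (x + 1) + 1) - 1 - (x + t) = L (N + (x + 1)) - 1 - x := by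
      rw [hL (x + 1)]
      omega
    have hx' : x < L (N + (x + 1)) := hx
    have e3 : u (L (N + (x + 1)) - 1 - x) = ψ (N + (x + 1)) (u x) := by
      rw [S.pal (N + (x + 1)) _ (by omega)]
      congr 2
      omega
    rw [e1, e2, e3]
    exact hρ (x + 1) (u x)
  have hit : ∀ j x, u (x + j * t) = (e ^ j) (u x) := by
    intro j
    induction j with
    | zero => intro x; simp
    | succ j ih =>
      intro x
      have : x + (j + 1) * t = x + j * t + t := by ring
      rw [this, hsh, ih, pow_succ']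
      rfl
  refine ⟨0, orderOf e * t, Nat.mul_pos (orderOf_pos e) htp, fun i _ => ?_⟩
  rw [hit, pow_orderOf_eq_one]
  rfl

end back

/-! ## Periodicity implies the conditions -/

section forth

variable {u : ℕ → α} {L : ℕ → ℕ} {ψ : ℕ → α → α}

theorem pure_periodic (S : Sit u L ψ) {N p : ℕ} (h : ∀ i, N ≤ i → u (i + p) = u i) :
    ∀ i, u (i + p) = u i := by
  intro i
  have hn : i + p + N + 1 ≤ L (i + p + N + 1) := S.mono.le_apply
  set n := i + p + N + 1 with hn'
  rw [S.pal n (i + p) (by omega), S.pal n i (by omega)]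
  have e : L n - 1 - i = L n - 1 - (i + p) + p := by omega
  rw [e, h _ (by omega)]

theorem refl_at (S : Sit u L ψ) {p : ℕ} (hp : 0 < p) (h : ∀ i, u (i + p) = u i) (n : ℕ)
    (hn : p ≤ L n) (x y : ℕ) (hxy : (p : ℤ) ∣ (x : ℤ) + y + 1 - L n) : u x = ψ n (u y) := by
  have hper : Function.Periodic u p := h
  have h1 : u x = u (x % p) := (hper.map_mod_nat x).symm
  have hlt : x % p < p := Nat.mod_lt _ hp
  have h2 : u (L n - 1 - x % p) = u y := by
    rw [← hper.map_mod_nat (L n - 1 - x % p), ← hper.map_mod_nat y]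
    congr 1
    apply (Nat.modEq_iff_dvd).2
    have e1 : ((L n - 1 - x % p : ℕ) : ℤ) = (L n : ℤ) - 1 - ((x % p : ℕ) : ℤ) := by omega
    have e2 : (p : ℤ) ∣ (x : ℤ) - ((x % p : ℕ) : ℤ) :=
      (Nat.modEq_iff_dvd).1 (Nat.mod_modEq x p)
    rw [e1]
    obtain ⟨a, ha⟩ := hxy
    obtain ⟨b, hb⟩ := e2
    exact ⟨a - b, by linear_combination ha - hb⟩
  rw [h1, S.pal n _ (by omega), h2]

theorem refl3 (S : Sit u L ψ) {p : ℕ} (hp : 0 < p) (h : ∀ i, u (i + p) = u i) (n : ℕ)
    (hn : p ≤ L n) (x y : ℕ) (hxy : (p : ℤ) ∣ (x : ℤ) + y + 1 - (2 * L (n + 1) - L n)) :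
    u x = ψ (n + 1) (ψ n (ψ (n + 1) (u y))) := by
  have m1 : L n < L (n + 1) := S.mono (by omega)
  have hz : ∀ c x : ℕ, (p : ℤ) ∣ (x : ℤ) + ((p - 1) * (x + 1) + c : ℕ) + 1 - c := by
    intro c x
    refine ⟨x + 1, ?_⟩
    push_cast [Nat.cast_sub (show 1 ≤ p from hp)]
    ring
  obtain ⟨z, hz1⟩ : ∃ z : ℕ, (p : ℤ) ∣ (x : ℤ) + z + 1 - L (n + 1) := ⟨_, hz _ _⟩
  obtain ⟨z', hz2⟩ : ∃ z' : ℕ, (p : ℤ) ∣ (z : ℤ) + z' + 1 - L n := ⟨_, hz _ _⟩
  rw [refl_at S hp h (n + 1) (by omega) x z hz1, refl_at S hp h n hn z z' hz2,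
    refl_at S hp h (n + 1) (by omega) z' y]
  obtain ⟨a, ha⟩ := hxy
  obtain ⟨b, hb⟩ := hz1
  obtain ⟨c, hc⟩ := hz2
  exact ⟨a - b + c, by linear_combination ha - hb + hc⟩

theorem forth (S : Sit u L ψ) (hd : Function.Surjective u) (hu : Periodic u) :
    ∃ N, ∃ a : α, ∀ n, N ≤ n → ψ n (u (L n)) = a ∧
      ∀ x, ψ (n + 2) (ψ (n + 1) x) = ψ (n + 1) (ψ n x) := by
  obtain ⟨N₀, p, hp, hN₀⟩ := hu
  have h := pure_periodic S hN₀
  have hL : ∀ n, p ≤ n → p ≤ L n := fun n hn => hn.trans (S.mono.le_apply)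
  -- the gaps decrease
  have gap : ∀ n, p ≤ n → L (n + 2) + L n ≤ 2 * L (n + 1) := by
    intro n hn
    have m1 : L n < L (n + 1) := S.mono (by omega)
    obtain ⟨k, hk⟩ := S.normal (fun x => ψ (n + 1) (ψ n (ψ (n + 1) x)))
      (fun x => by simp only [S.inv]) (2 * L (n + 1) - L n) (by omega) (by
        intro i hi
        apply refl3 S hp h n (hL n hn)
        refine ⟨0, ?_⟩
        have : ((2 * L (n + 1) - L n - 1 - i : ℕ) : ℤ) = 2 * L (n + 1) - L n - 1 - i := by omega
        rw [this]
        ring)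
    have h1 : L (n + 1) < L k := by omega
    have h2 : n + 1 < k := S.mono.lt_iff_lt.1 h1
    have h3 : L (n + 2) ≤ L k := S.mono.monotone (by omega)
    omega
  classical
  let g : ℕ → ℕ := fun n => L (n + 1) - L n
  have hex : ∃ v, ∃ n, p ≤ n ∧ g n = v := ⟨_, p, le_rfl, rfl⟩
  obtain ⟨N, hN, hNv⟩ := Nat.find_spec hex
  have hmin : ∀ n, p ≤ n → g N ≤ g n := by
    intro n hn
    rw [hNv]
    exact Nat.find_min' hex ⟨n, hn, rfl⟩
  have hdec : ∀ k, g (N + k) ≤ g N := by
    intro k
    induction k with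
    | zero => exact le_rfl
    | succ k ih =>
      have h1 := gap (N + k) (by omega)
      have m1 : L (N + k) < L (N + k + 1) := S.mono (by omega)
      have m2 : L (N + k + 1) < L (N + k + 2) := S.mono (by omega)
      have e1 : g (N + (k + 1)) = L (N + k + 2) - L (N + k + 1) := rfl
      have e2 : g (N + k) = L (N + k + 1) - L (N + k) := rfl
      omega
  have hcon : ∀ n, N ≤ n → L (n + 2) + L n = 2 * L (n + 1) := by
    intro n hn
    obtain ⟨k, rfl⟩ := Nat.exists_eq_add_of_le hn
    have h1 := hdec k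
    have h2 := hdec (k + 1)
    have h3 := hmin (N + k) (by omega)
    have h4 := hmin (N + (k + 1)) (by omega)
    have m1 : L (N + k) < L (N + k + 1) := S.mono (by omega)
    have m2 : L (N + k + 1) < L (N + k + 2) := S.mono (by omega)
    have e1 : g (N + (k + 1)) = L (N + k + 2) - L (N + k + 1) := rfl
    have e2 : g (N + k) = L (N + k + 1) - L (N + k) := rfl
    omega
  refine ⟨N, u (p - 1), fun n hn => ⟨?_, ?_⟩⟩
  · symm
    apply refl_at S hp h n (hL n (by omega))
    refine ⟨1, ?_⟩
    push_cast [Nat.cast_sub (show 1 ≤ p from hp)]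
    ring
  · have key : ∀ b, ψ (n + 2) b = ψ (n + 1) (ψ n (ψ (n + 1) b)) := by
      intro b
      obtain ⟨y, rfl⟩ := hd b
      obtain ⟨x, hx⟩ : ∃ x : ℕ, (p : ℤ) ∣ (x : ℤ) + y + 1 - L (n + 2) := by
        refine ⟨(p - 1) * (y + 1) + L (n + 2), y + 1, ?_⟩
        push_cast [Nat.cast_sub (show 1 ≤ p from hp)]
        ring
      have h1 := refl_at S hp h (n + 2) (hL _ (by omega)) x y hx
      have h2 := refl3 S hp h n (hL _ (by omega)) x y (by
        have h3 := hcon n hn
        have : (2 * (L (n + 1) : ℤ) - L n) = L (n + 2) := by omega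
        rw [this]
        exact hx)
      rw [← h1, ← h2]
    intro x
    rw [key, S.inv]

end forth

/-! ## The theorem -/

theorem two_iff {θ₀ θ₁ θ₂ : List α → List α} {φ₀ φ₁ φ₂ : α → α} (hi : ∀ x, φ₀ (φ₀ x) = x)
    (h₀ : ∀ w, θ₀ w = w.reverse.map φ₀) (h₁ : ∀ w, θ₁ w = w.reverse.map φ₁)
    (h₂ : ∀ w, θ₂ w = w.reverse.map φ₂) :
    (∀ w, θ₀ w = w → θ₂ (θ₁ w) = θ₁ w) ↔ ∀ x, φ₂ (φ₁ x) = φ₁ (φ₀ x) := by
  constructor
  · intro h x
    have h3 := h [x, φ₀ x] (by rw [h₀]; simp [hi])
    rw [h₁, h₂] at h3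
    simp at h3
    exact h3.1
  · intro h w hw
    rw [h₀] at hw
    have hr : w.reverse = w.map φ₀ := by
      conv_lhs => rw [← hw]
      simp
    have e1 : (w.reverse.map φ₁).reverse = w.map φ₁ := by simp
    rw [h₂, h₁, e1, hr, List.map_map, List.map_map]
    apply List.map_congr_left
    intro x _
    exact h x

/-- **Theorem.** Let `u` be a `d`-ary generalized pseudostandard word and `(Δ, Θ)` a normalized
directive bi-sequence of `u`. Then `u` is periodic if and only if there is `N` such that the tails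
`δ₁ δ₂ ⋯ = Δ N, Δ (N + 1), …` and `ϑ₁ ϑ₂ ⋯ = Θ N, Θ (N + 1), …` satisfy both conditions. -/
theorem result : ∀ (α : Type) [Finite α] (Δ : ℕ → α) (Θ : ℕ → List α → List α) (u : ℕ → α),
    (∀ n, InvAnti (Θ n)) → Generates Δ Θ u → Function.Surjective u → Normalized Δ Θ u →
    (Periodic u ↔ ∃ N,
      (∀ i j, Θ (N + i) [Δ (N + i + 1)] = Θ (N + j) [Δ (N + j + 1)]) ∧
      (∀ i w, Θ (N + i) w = w → Θ (N + i + 2) (Θ (N + i + 1) w) = Θ (N + i + 1) w)) := by
  intro α _ Δ Θ u hΘ hu hd hN
  choose ψ hi hψ using fun n => anti_shape (hΘ n)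
  have S := sit hΘ hu hN hi hψ
  have hlet : ∀ n, Θ n [Δ (n + 1)] = [ψ n (u (len Δ Θ (n + 1)))] := by
    intro n
    rw [hψ, letter hΘ hu]
    rfl
  constructor
  · intro hp
    obtain ⟨N, a, h⟩ := forth S hd hp
    refine ⟨N, fun i j => ?_, fun i => ?_⟩
    · rw [hlet, hlet, (h (N + i) (by omega)).1, (h (N + j) (by omega)).1]
    · exact (two_iff (hi _) (hψ _) (hψ _) (hψ _)).2 (h (N + i) (by omega)).2
  · rintro ⟨N, h1, h2⟩
    apply back S N
    · intro n hn
      obtain ⟨k, rfl⟩ := Nat.exists_eq_add_of_le hn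
      have h3 := h1 k (k + 1)
      have e : N + (k + 1) = N + k + 1 := by ring
      rw [e, hlet, hlet] at h3
      simpa using h3
    · intro n hn
      obtain ⟨k, rfl⟩ := Nat.exists_eq_add_of_le hn
      exact (two_iff (hi _) (hψ _) (hψ _) (hψ _)).1 (h2 k)

end Pool.Agent.Results.MP_757726_co.PeriodicWords
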